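import Pool.Agent.H95.LBS.HubX
import Pool.Agent.H95.LBD.LawA
import Pool.Agent.H95.LBD.Setup
import Pool.Agent.H70.CF.KerC
import Pool.Agent.H70.CF.Defs

/-!
PROJECT CF (MP_0d9ad5_pr, note 2718, (T2)). Thinning: the two-point function slightly below `p0`.
-/

namespace CF

open H5DF H95LBD H95LBS MeasureTheory
open scoped ENNReal

variable {d : ℕ}

/-- The last point of a path in the hub (as `H95LBS.Near2_dec`). -/
lemma Thin_dec {S : Set (V d)} {ω η : Cfg d} {x y : V d} (h : Cn S (un ω η) x y) :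
    Cn S ω x y ∨ ∃ a σ, a ∈ hub S ω x ∧ a + step σ ∉ hub S ω x ∧ η (edge a σ) = true ∧
      Cn S (cut (hub S ω x)ᶜ (un ω η)) (a + step σ) y := by
  have key : y ∈ hub S ω x ∨ (y ∉ hub S ω x ∧ ∃ a σ, a ∈ hub S ω x ∧ a + step σ ∉ hub S ω x ∧
      η (edge a σ) = true ∧ Cn S (cut (hub S ω x)ᶜ (un ω η)) (a + step σ) y) := by
    refine Cn.ind (fun y => y ∈ hub S ω x ∨ (y ∉ hub S ω x ∧ ∃ a σ, a ∈ hub S ω x ∧
      a + step σ ∉ hub S ω x ∧ η (edge a σ) = true ∧
      Cn S (cut (hub S ω x)ᶜ (un ω η)) (a + step σ) y)) (Or.inl (mem_hub_self S ω x)) ?_ h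
    intro y τ _ hP hy hyτ ho
    by_cases hτ : y + step τ ∈ hub S ω x
    · exact Or.inl hτ
    · right
      refine ⟨hτ, ?_⟩
      rcases hP with hP | ⟨hP, a, σ, ha, hσ, hη, hc⟩
      · refine ⟨y, τ, hP, hτ, ?_, Cn.refl _ _ _⟩
        rcases un_true.1 ho with h1 | h1
        · exact absurd (Cn.trans hP (Cn.one h1 hy hyτ)) hτ
        · exact h1
      · refine ⟨a, σ, ha, hσ, hη, hc.trans (Cn.one ?_ hy hyτ)⟩
        exact cut_edge.2 ⟨ho, hP, hτ⟩
  rcases key with h1 | ⟨-, h1⟩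
  · exact Or.inl h1
  · exact Or.inr h1

lemma Thin_fin {p s : ℝ} (h0 : 0 ≤ p) (h1 : p ≤ 1) (hs0 : 0 ≤ s) (hs1 : s ≤ 1) (r : ℕ) (x : V d) :
    (perc d (pn p s)).real {ω | Cn (Bx 0 r) ω 0 x} ≤ (perc d p).real {ω | Cn (Bx 0 r) ω 0 x} +
      ∑ a ∈ BF (0 : V d) r, ∑ σ : Dir d, (perc d p).real {ω | Cn (Bx 0 r) ω 0 a} * s *
        (perc d (pn p s)).real {ω | Cn (Bx 0 r) ω (a + step σ) x} := by
  have hprob := isProb_perc (d := d) p h0 h1
  have hP := isProb_PP (d := d) h0 h1 hs0 hs1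
  have hS : ((BF (0 : V d) r : Finset (V d)) : Set (V d)) = Bx 0 r := coe_BF 0 r
  have e1 : (perc d (pn p s)).real {ω | Cn (Bx 0 r) ω 0 x} =
      (PP d p s).real {q | Cn (Bx 0 r) (un q.1 q.2) 0 x} := by
    rw [← map_un h0 h1 hs0 hs1,
      map_measureReal_apply measurable_un (meas_Cn _ _ _)]
    rfl
  set B : V d → Dir d → Set (Cfg d) := fun a σ => {ω | Cn (Bx 0 r) ω (a + step σ) x} with hB
  have h2 := explore_le h0 h1 hs0 hs1 (BF (0 : V d) r) 0 (by rw [mem_BF, sub_zero, nm_zero]; omega) B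
    (fun a σ => meas_Cn _ _ _) (fun a σ ω ω' h hc => Cn.mono hc (fun _ h => h) h)
  rw [hS] at h2
  have e2 : (PP d p s).real {q | Cn (Bx 0 r) q.1 0 x} =
      (perc d p).real {ω | Cn (Bx 0 r) ω 0 x} := by
    have hs' := isProb_perc (d := d) s hs0 hs1
    have e3 : {q : Cfg d × Cfg d | Cn (Bx 0 r) q.1 0 x} =
        {ω : Cfg d | Cn (Bx 0 r) ω 0 x} ×ˢ Set.univ := by
      ext q
      simp
    rw [e3, PP, measureReal_prod_prod, probReal_univ, mul_one]
  rw [e1, ← e2]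
  have hsub : {q : Cfg d × Cfg d | Cn (Bx 0 r) (un q.1 q.2) 0 x} ⊆
      {q | Cn (Bx 0 r) q.1 0 x} ∪ {q | ∃ a σ, a ∈ hub (Bx 0 r) q.1 0 ∧
        a + step σ ∉ hub (Bx 0 r) q.1 0 ∧ q.2 (edge a σ) = true ∧
        cut (hub (Bx 0 r) q.1 0)ᶜ (un q.1 q.2) ∈ B a σ} := by
    intro q hq
    exact Thin_dec hq
  exact (measureReal_mono hsub (measure_ne_top _ _)).trans
    ((measureReal_union_le _ _).trans (add_le_add le_rfl h2))

lemma Thin_lim (p : ℝ) (x : V d) :
    tau d p x = ⨆ r : ℕ, perc d p {ω | Cn (Bx 0 r) ω 0 x} := by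
  have h1 : {ω : Cfg d | x ∈ cluster ω 0} = ⋃ r : ℕ, {ω | Cn (Bx 0 r) ω 0 x} := by
    ext ω
    rw [Set.mem_iUnion]
    constructor
    · intro h
      have h2 : ω ∈ SCn ({0} : Finset (V d)) Set.univ x := by
        refine ⟨0, Finset.mem_singleton_self _, ?_⟩
        exact Cn_univ.2 h
      obtain ⟨n, hn⟩ := SCn_fw _ _ _ ω h2
      obtain ⟨u, hu, hn⟩ := hn
      rw [Finset.mem_singleton] at hu
      subst hu
      exact ⟨n, Cn_univ.1 hn⟩
    · rintro ⟨r, hr⟩
      exact Cn.cluster hr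
  have h2 : Monotone fun r : ℕ => {ω : Cfg d | Cn (Bx 0 r) ω 0 x} := by
    intro r r' h ω hω
    exact Cn.mono hω (fun y hy => le_trans hy h) (fun _ h => h)
  unfold tau
  rw [h1, h2.measure_iUnion]

/-- the sprinkling inequality for the two-point function -/
theorem tau_sprinkle {p s : ℝ} (h0 : 0 ≤ p) (h1 : p ≤ 1) (hs0 : 0 ≤ s) (hs1 : s ≤ 1) (x : V d) :
    tau d (pn p s) x ≤ tau d p x + ∑' a : V d, ∑ σ : Dir d,
      tau d p a * ENNReal.ofReal s * tau d (pn p s) (x - (a + step σ)) := by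
  have hq0 : 0 ≤ pn p s := h0.trans (pn_ge h1 hs0)
  have hq1 : pn p s ≤ 1 := pn_le h1 hs1
  have hprob := isProb_perc (d := d) p h0 h1
  have hprob' := isProb_perc (d := d) (pn p s) hq0 hq1
  rw [Thin_lim (pn p s) x]
  refine iSup_le fun r => ?_
  have h2 := ENNReal.ofReal_le_ofReal (Thin_fin h0 h1 hs0 hs1 r x)
  rw [ofReal_measureReal] at h2
  refine h2.trans ((ENNReal.ofReal_add_le).trans (add_le_add ?_ ?_))
  · rw [ofReal_measureReal]
    exact measure_mono fun ω h => Cn.cluster h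
  · rw [ENNReal.ofReal_sum_of_nonneg (fun a _ => Finset.sum_nonneg fun σ _ => by positivity)]
    refine le_trans (Finset.sum_le_sum fun a _ => ?_) (ENNReal.sum_le_tsum (BF (0 : V d) r))
    rw [ENNReal.ofReal_sum_of_nonneg (fun σ _ => by positivity)]
    refine Finset.sum_le_sum fun σ _ => ?_
    rw [ENNReal.ofReal_mul (by positivity), ENNReal.ofReal_mul (by positivity), ofReal_measureReal,
      ofReal_measureReal]
    refine mul_le_mul' (mul_le_mul' (measure_mono fun ω h => Cn.cluster h) le_rfl) ?_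
    rw [← prob_cluster_mem (pn p s) hq0 hq1]
    exact measure_mono fun ω h => Cn.cluster h

lemma Thin_kr (z : V d) : ENNReal.ofReal (kr z) = ker (d - 2) 0 z := by
  rw [KerC_zero]
  rfl

lemma Thin_mono {p s : ℝ} (h0 : 0 ≤ p) (h1 : p ≤ 1) (hs0 : 0 ≤ s) (hs1 : s ≤ 1) (x : V d) :
    tau d p x ≤ tau d (pn p s) x := by
  have hinc : Inc {ω : Cfg d | x ∈ cluster ω 0} := by
    intro ω ω' h hω
    exact Cn_univ.1 (Cn.mono (Cn_univ.2 hω) (fun _ h => h) h)
  have hq0 : 0 ≤ pn p s := h0.trans (pn_ge h1 hs0)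
  have hq1 : pn p s ≤ 1 := pn_le h1 hs1
  have hprob := isProb_perc (d := d) p h0 h1
  have hprob' := isProb_perc (d := d) (pn p s) hq0 hq1
  have h := perc_mono h0 (pn_ge h1 hs0) (pn_le h1 hs1) hinc (meas_reach 0 x)
  have h2 := ENNReal.ofReal_le_ofReal h
  rw [ofReal_measureReal, ofReal_measureReal] at h2
  exact h2

/-- (T2): lower bound for the two-point function slightly below `p0 = pn p s` -/
theorem Thin_low (hd : 5 ≤ d) {a A : ℝ} (ha : 0 < a) (hA : 0 < A) : ∃ c1 : ℝ, 0 < c1 ∧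
    ∀ (p s : ℝ) (L : ℕ), 0 ≤ p → p ≤ 1 → 0 ≤ s → s ≤ 1 → 1 ≤ L → s * (L : ℝ) ^ 2 ≤ c1 →
      KB d (pn p s) a A → ∀ x : V d, nm x ≤ 6 * L →
        ENNReal.ofReal (a / 2 * kr x) ≤ tau d p x := by
  obtain ⟨C, hC, hconv⟩ := ker_conv (d := d) (d - 2) (d - 2) (by omega) (by omega) (by omega)
  have hd0 : (0 : ℝ) < d := by
    exact_mod_cast (by omega : 0 < d)
  set C' : ℝ := (2 * d) * (A * A) * 2 ^ (d - 2) * C with hC'
  have hC'0 : 0 < C' := by positivity
  refine ⟨a / (98 * C'), by positivity, ?_⟩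
  intro p s L h0 h1 hs0 hs1 hL hsL hKB x hx
  have hkr0 := kr_pos x
  have hspr := tau_sprinkle h0 h1 hs0 hs1 x
  have hup : ∀ z : V d, tau d (pn p s) z ≤ ENNReal.ofReal A * ker (d - 2) 0 z := by
    intro z
    rw [← Thin_kr, ← ENNReal.ofReal_mul hA.le]
    exact (hKB z).2
  have hterm : ∀ b : V d, ∑ σ : Dir d,
      tau d p b * ENNReal.ofReal s * tau d (pn p s) (x - (b + step σ)) ≤
      ENNReal.ofReal ((2 * d) * (A * A) * 2 ^ (d - 2) * s) *
        (ker (d - 2) 0 (b - 0) * ker (d - 2) 0 (x - b)) := by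
    intro b
    have h2 : ∀ σ : Dir d, tau d p b * ENNReal.ofReal s * tau d (pn p s) (x - (b + step σ)) ≤
        ENNReal.ofReal ((A * A) * 2 ^ (d - 2) * s) *
        (ker (d - 2) 0 (b - 0) * ker (d - 2) 0 (x - b)) := by
      intro σ
      have h3 : tau d p b ≤ ENNReal.ofReal A * ker (d - 2) 0 (b - 0) := by
        rw [sub_zero]
        exact (Thin_mono h0 h1 hs0 hs1 b).trans (hup b)
      have h4 : ker (d - 2) 0 (x - (b + step σ)) ≤
          ENNReal.ofReal (2 ^ (d - 2)) * ker (d - 2) 0 (x - b) := by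
        have h5 := ker_move (t := 0) le_rfl (d - 2) 1 (z := x - (b + step σ)) (z' := x - b) (by
          have : x - (b + step σ) - (x - b) = - step σ := by abel
          rw [this, nm_neg, nm_step])
        refine h5.trans (le_of_eq ?_)
        congr 2
        norm_num
      calc tau d p b * ENNReal.ofReal s * tau d (pn p s) (x - (b + step σ))
          ≤ (ENNReal.ofReal A * ker (d - 2) 0 (b - 0)) * ENNReal.ofReal s *
            (ENNReal.ofReal A * (ENNReal.ofReal (2 ^ (d - 2)) * ker (d - 2) 0 (x - b))) :=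
            mul_le_mul' (mul_le_mul' h3 le_rfl) ((hup _).trans (mul_le_mul' le_rfl h4))
        _ = (ENNReal.ofReal A * ENNReal.ofReal A * ENNReal.ofReal (2 ^ (d - 2)) *
              ENNReal.ofReal s) * (ker (d - 2) 0 (b - 0) * ker (d - 2) 0 (x - b)) := by ring
        _ = _ := by
            rw [← ENNReal.ofReal_mul (by positivity), ← ENNReal.ofReal_mul (by positivity),
              ← ENNReal.ofReal_mul (by positivity)]
    refine (Finset.sum_le_sum fun σ _ => h2 σ).trans (le_of_eq ?_)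
    rw [Finset.sum_const, nsmul_eq_mul, ← mul_assoc]
    congr 1
    have h6 : ((Finset.univ : Finset (Dir d)).card : ℝ≥0∞) = ENNReal.ofReal (2 * d) := by
      have : (Finset.univ : Finset (Dir d)).card = 2 * d := by
        rw [Finset.card_univ, Fintype.card_prod, Fintype.card_fin, Fintype.card_bool, mul_comm]
      rw [this, show (2 * (d : ℝ)) = ((2 * d : ℕ) : ℝ) by push_cast; ring, ENNReal.ofReal_natCast]
    rw [h6, ← ENNReal.ofReal_mul (by positivity)]
    congr 1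
    ring
  have hsum : (∑' b : V d, ∑ σ : Dir d,
      tau d p b * ENNReal.ofReal s * tau d (pn p s) (x - (b + step σ))) ≤
      ENNReal.ofReal (C' * s * ((1 + (nm x : ℝ)) ^ 2 * kr x)) := by
    refine (ENNReal.tsum_le_tsum hterm).trans ?_
    rw [ENNReal.tsum_mul_left]
    refine (mul_le_mul' le_rfl (hconv 0 le_rfl 0 x)).trans (le_of_eq ?_)
    rw [sub_zero, KerC_zero, ← ENNReal.ofReal_mul hC.le, ← ENNReal.ofReal_mul (by positivity)]
    congr 1
    have h7 : (1 : ℝ) / (1 + (nm x : ℝ)) ^ (d - 2 + (d - 2) - d) =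
        (1 + (nm x : ℝ)) ^ 2 * kr x := by
      unfold kr
      obtain ⟨e, he⟩ : ∃ e, d = e + 5 := ⟨d - 5, by omega⟩
      have h8 : d - 2 = e + 3 := by omega
      have h8' : d - 2 + (d - 2) - d = e + 1 := by omega
      rw [h8', h8]
      have h9 : (0 : ℝ) < 1 + (nm x : ℝ) := by positivity
      have h12 : (1 + (nm x : ℝ)) ^ (e + 3) = (1 + (nm x : ℝ)) ^ (e + 1) * (1 + (nm x : ℝ)) ^ 2 := by
        rw [← pow_add]
      have h13 : (1 + (nm x : ℝ)) ^ 2 ≠ 0 := by positivity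
      have h14 : (1 + (nm x : ℝ)) ^ (e + 1) ≠ 0 := by positivity
      rw [h12, mul_one_div, div_eq_div_iff h14 (mul_ne_zero h14 h13)]
      ring
    rw [h7, hC']
    ring
  have hsmall : C' * s * ((1 + (nm x : ℝ)) ^ 2 * kr x) ≤ a / 2 * kr x := by
    have hL1 : (1 : ℝ) ≤ L := by exact_mod_cast hL
    have hn : (1 + (nm x : ℝ)) ≤ 7 * L := by
      have : (nm x : ℝ) ≤ 6 * L := by exact_mod_cast hx
      linarith
    have hn0 : (0 : ℝ) ≤ 1 + (nm x : ℝ) := by positivity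
    have h10 : (1 + (nm x : ℝ)) ^ 2 ≤ 49 * (L : ℝ) ^ 2 := by
      calc (1 + (nm x : ℝ)) ^ 2 ≤ (7 * L) ^ 2 := pow_le_pow_left₀ hn0 hn 2
        _ = 49 * (L : ℝ) ^ 2 := by ring
    calc C' * s * ((1 + (nm x : ℝ)) ^ 2 * kr x)
        ≤ C' * s * (49 * (L : ℝ) ^ 2 * kr x) := by gcongr
      _ = 49 * C' * (s * (L : ℝ) ^ 2) * kr x := by ring
      _ ≤ 49 * C' * (a / (98 * C')) * kr x := by gcongr
      _ = a / 2 * kr x := by
          field_simp
          norm_num
  have h11 : ENNReal.ofReal (a / 2 * kr x) + ENNReal.ofReal (a / 2 * kr x) ≤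
      tau d p x + ENNReal.ofReal (a / 2 * kr x) := by
    rw [← ENNReal.ofReal_add (by positivity) (by positivity)]
    calc ENNReal.ofReal (a / 2 * kr x + a / 2 * kr x) = ENNReal.ofReal (a * kr x) := by
          congr 1
          ring
      _ ≤ tau d (pn p s) x := (hKB x).1
      _ ≤ tau d p x + _ := hspr
      _ ≤ tau d p x + ENNReal.ofReal (a / 2 * kr x) :=
          add_le_add le_rfl (hsum.trans (ENNReal.ofReal_le_ofReal hsmall))
  exact (ENNReal.add_le_add_iff_right ENNReal.ofReal_ne_top).1 h11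

end CF
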